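import Mathlib

/-!
# Compact countable sets of complex numbers, and Gauss sums of class-two type
-/

set_option autoImplicit false

namespace V1125.Inv

open Set

/-- Compact and countable. -/
def CC (S : Set ℂ) : Prop := IsCompact S ∧ S.Countable

theorem CC.of_finite {S : Set ℂ} (h : S.Finite) : CC S := ⟨h.isCompact, h.countable⟩

theorem CC.union {S T : Set ℂ} (hS : CC S) (hT : CC T) : CC (S ∪ T) :=
  ⟨hS.1.union hT.1, hS.2.union hT.2⟩

theorem CC.image {S : Set ℂ} (hS : CC S) (f : ℂ → ℂ) (hf : Continuous f) : CC (f '' S) :=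
  ⟨hS.1.image hf, hS.2.image f⟩

theorem CC.image2 {S T : Set ℂ} (hS : CC S) (hT : CC T) (f : ℂ → ℂ → ℂ)
    (hf : Continuous (Function.uncurry f)) : CC (Set.image2 f S T) := by
  refine ⟨?_, hS.2.image2 hT.2 f⟩
  rw [← Set.image_uncurry_prod]
  exact (hS.1.prod hT.1).image hf

theorem CC.biUnion {ι : Type*} {s : Set ι} (hs : s.Finite) {f : ι → Set ℂ}
    (hf : ∀ i ∈ s, CC (f i)) : CC (⋃ i ∈ s, f i) :=
  ⟨hs.isCompact_biUnion fun i hi => (hf i hi).1, hs.countable.biUnion fun i hi => (hf i hi).2⟩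

/-- All sums of `n` elements of `S`. -/
def sumSet (n : ℕ) (S : Set ℂ) : Set ℂ := {z | ∃ f : Fin n → ℂ, (∀ i, f i ∈ S) ∧ z = ∑ i, f i}

theorem CC.sumSet {S : Set ℂ} (hS : CC S) (n : ℕ) : CC (sumSet n S) := by
  have h : Inv.sumSet n S = (fun f : Fin n → ℂ => ∑ i, f i) '' Set.pi Set.univ (fun _ => S) := by
    ext z
    constructor
    · rintro ⟨f, hf, rfl⟩
      exact ⟨f, fun i _ => hf i, rfl⟩
    · rintro ⟨f, hf, rfl⟩
      exact ⟨f, fun i => hf i (Set.mem_univ i), rfl⟩
  rw [h]
  exact ⟨(isCompact_univ_pi fun _ => hS.1).image (by fun_prop),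
    (Set.countable_univ_pi fun _ => hS.2).image _⟩

theorem sum_mem_sumSet {ι : Type*} [Fintype ι] {n : ℕ} (hn : Fintype.card ι = n) {S : Set ℂ}
    (f : ι → ℂ) (hf : ∀ i, f i ∈ S) : ∑ i, f i ∈ sumSet n S := by
  subst hn
  refine ⟨fun i => f ((Fintype.equivFin ι).symm i), fun i => hf _, ?_⟩
  exact (Equiv.sum_comp (Fintype.equivFin ι).symm f).symm

/-- Finite sets shrinking to zero form a compact countable set. -/
theorem CC.shrinking (F : ℕ → Set ℂ) (hF : ∀ r, (F r).Finite) (ρ : ℕ → ℝ)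
    (hρ : Filter.Tendsto ρ Filter.atTop (nhds 0)) (hFρ : ∀ r, ∀ z ∈ F r, ‖z‖ ≤ ρ r) :
    CC (insert 0 (⋃ r, F r)) := by
  refine ⟨?_, (Set.countable_iUnion fun r => (hF r).countable).insert 0⟩
  rw [isCompact_iff_ultrafilter_le_nhds]
  intro f hf
  by_cases h : ∀ ε > 0, Metric.ball (0 : ℂ) ε ∈ f
  · refine ⟨0, Set.mem_insert _ _, ?_⟩
    intro U hU
    obtain ⟨ε, hε, hεU⟩ := Metric.mem_nhds_iff.1 hU
    exact Filter.mem_of_superset (h ε hε) hεU
  · push Not at h
    obtain ⟨ε, hε, hεf⟩ := h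
    have hc : (Metric.ball (0 : ℂ) ε)ᶜ ∈ f := Ultrafilter.compl_mem_iff_notMem.2 hεf
    have hS : insert 0 (⋃ r, F r) ∈ f := Filter.le_principal_iff.1 hf
    have hfin : (insert (0 : ℂ) (⋃ r, F r) ∩ (Metric.ball (0 : ℂ) ε)ᶜ).Finite := by
      obtain ⟨N, hN⟩ := (Filter.eventually_atTop.1 (hρ.eventually (gt_mem_nhds hε)))
      refine ((Set.finite_Iio N).biUnion fun r _ => hF r).subset ?_
      rintro z ⟨hz, hz'⟩
      rw [Set.mem_compl_iff, Metric.mem_ball, dist_zero_right, not_lt] at hz'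
      rcases hz with rfl | hz
      · rw [norm_zero] at hz'
        exact absurd hz' (not_le.2 hε)
      · obtain ⟨r, hr⟩ := Set.mem_iUnion.1 hz
        refine Set.mem_biUnion ?_ hr
        rw [Set.mem_Iio]
        by_contra hge
        have h1 := hN r (not_lt.1 hge)
        have h2 := hFρ r z hr
        exact absurd (lt_of_le_of_lt (hz'.trans h2) h1) (lt_irrefl _)
    obtain ⟨z, hz, hzf⟩ := Ultrafilter.eq_pure_of_finite_mem hfin (Filter.inter_mem hS hc)
    exact ⟨z, hz.1, by rw [hzf]; exact pure_le_nhds z⟩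

/-- Averages of `r+1` roots of unity of order dividing `b` with the Gauss sum bound. -/
def F (b r : ℕ) : Set ℂ := {z | ‖z‖ ≤ 1 / Real.sqrt (r + 1) ∧
  ∃ ω : Fin (r + 1) → ℂ, (∀ i, ω i ^ b = 1) ∧ z = (∑ i, ω i) / (r + 1)}

/-- Values of normalised Gauss sums. -/
def Z (b : ℕ) : Set ℂ := insert 0 (⋃ r, F b r)

theorem roots_finite (b : ℕ) (hb : 0 < b) : {z : ℂ | z ^ b = 1}.Finite := by
  have h : {z : ℂ | z ^ b = 1} ⊆ ((Polynomial.nthRoots b (1 : ℂ)).toFinset : Set ℂ) := by
    intro z hz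
    rw [Finset.mem_coe, Multiset.mem_toFinset, Polynomial.mem_nthRoots hb]
    exact hz
  exact (Finset.finite_toSet _).subset h

theorem F_finite (b r : ℕ) (hb : 0 < b) : (F b r).Finite := by
  have h : F b r ⊆ (fun ω : Fin (r + 1) → ℂ => (∑ i, ω i) / (r + 1)) ''
      Set.pi Set.univ (fun _ => {z : ℂ | z ^ b = 1}) := by
    rintro z ⟨_, ω, hω, rfl⟩
    exact ⟨ω, fun i _ => hω i, rfl⟩
  exact ((Set.Finite.pi' fun _ => roots_finite b hb).subset (by
    intro ω hω i; exact hω i (Set.mem_univ i)) |>.image _).subset h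

theorem CC_Z (b : ℕ) (hb : 0 < b) : CC (Z b) := by
  refine CC.shrinking (F b) (fun r => F_finite b r hb) (fun r => 1 / Real.sqrt (r + 1)) ?_
    (fun r z hz => hz.1)
  have h1 : Filter.Tendsto (fun r : ℕ => Real.sqrt ((r : ℝ) + 1)) Filter.atTop Filter.atTop :=
    Real.tendsto_sqrt_atTop.comp
      (Filter.tendsto_atTop_add_const_right _ _ tendsto_natCast_atTop_atTop)
  simp only [one_div]
  exact h1.inv_tendsto_atTop

/-- `0` and the reciprocals of the positive integers. -/
def Rec : Set ℂ := insert 0 (⋃ n : ℕ, {((1 : ℂ) / (n + 1))})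

theorem CC_Rec : CC Rec := by
  refine CC.shrinking (fun n => {((1 : ℂ) / (n + 1))}) (fun n => Set.finite_singleton _)
    (fun n => 1 / ((n : ℝ) + 1)) tendsto_one_div_add_atTop_nhds_zero_nat ?_
  rintro r z hz
  rw [Set.mem_singleton_iff.1 hz, norm_div, norm_one]
  have : ‖((r : ℂ) + 1)‖ = (r : ℝ) + 1 := by
    have h : ((r : ℂ) + 1) = ((r + 1 : ℕ) : ℂ) := by push_cast; rfl
    rw [h, Complex.norm_natCast]
    push_cast; rfl
  rw [this]

theorem rec_mem {n : ℕ} (hn : 0 < n) : (1 : ℂ) / n ∈ Rec := by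
  obtain ⟨m, rfl⟩ : ∃ m, n = m + 1 := ⟨n - 1, by omega⟩
  right
  rw [Set.mem_iUnion]
  exact ⟨m, by rw [Set.mem_singleton_iff]; push_cast; rfl⟩

section Gauss

variable {L : Type*} [Group L] [Fintype L] {A : Type*} [AddCommGroup A] [Fintype A]
  (c : L → A) (β : L → L → A) (hc : ∀ x y, c (x * y) = c x + c y + β x y)
  (hβ1 : ∀ x y z, β (x * y) z = β x z + β y z) (hβ2 : ∀ x y z, β x (y * z) = β x y + β x z)

include hβ1 in
theorem beta_one_left (z : L) : β 1 z = 0 := by
  have h := hβ1 1 1 z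
  rw [one_mul] at h
  exact left_eq_add.1 h

include hβ2 in
theorem beta_one_right (z : L) : β z 1 = 0 := by
  have h := hβ2 z 1 1
  rw [one_mul] at h
  exact left_eq_add.1 h

include hβ1 hβ2 hc in
/-- Normalised Gauss sums lie in `Z (card A)`. -/
theorem gauss_mem (ψ : AddChar A ℂ) :
    (∑ x, ψ (c x)) / (Fintype.card L : ℂ) ∈ Z (Fintype.card A) := by
  classical
  have hLpos : (0 : ℝ) < Fintype.card L := by exact_mod_cast Fintype.card_pos
  have hL0 : (Fintype.card L : ℂ) ≠ 0 := by exact_mod_cast Fintype.card_ne_zero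
  let R : Subgroup L :=
    { carrier := {z | ∀ y, ψ (β y z) = 1}
      mul_mem' := by
        intro a b ha hb y
        rw [hβ2, AddChar.map_add_eq_mul, ha y, hb y, one_mul]
      one_mem' := by
        intro y
        rw [beta_one_right β hβ2, AddChar.map_zero_eq_one]
      inv_mem' := by
        intro a ha y
        have h := hβ2 y a a⁻¹
        rw [mul_inv_cancel, beta_one_right β hβ2] at h
        have h2 := congrArg ψ h
        rw [AddChar.map_zero_eq_one, AddChar.map_add_eq_mul, ha y, one_mul] at h2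
        exact h2.symm }
  have hRmem : ∀ z, z ∈ R ↔ ∀ y, ψ (β y z) = 1 := fun z => Iff.rfl
  have hcR : ∀ x z, z ∈ R → ψ (c (x * z)) = ψ (c x) * ψ (c z) := by
    intro x z hz
    rw [hc, AddChar.map_add_eq_mul, AddChar.map_add_eq_mul, (hRmem z).1 hz x, mul_one]
  by_cases hχ : ∃ z ∈ R, ψ (c z) ≠ 1
  · obtain ⟨z, hz, hz1⟩ := hχ
    have h1 : ∑ x, ψ (c x) = (∑ x, ψ (c x)) * ψ (c z) := by
      conv_lhs => rw [← Equiv.sum_comp (Equiv.mulRight z)]
      rw [Finset.sum_mul]
      exact Finset.sum_congr rfl fun x _ => hcR x z hz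
    have h2 : (∑ x, ψ (c x)) * (ψ (c z) - 1) = 0 := by rw [mul_sub, ← h1, mul_one, sub_self]
    have h3 : ∑ x, ψ (c x) = 0 := (mul_eq_zero.1 h2).resolve_right (sub_ne_zero.2 hz1)
    rw [h3, zero_div]
    exact Set.mem_insert _ _
  · push Not at hχ
    have hconst : ∀ x z, z ∈ R → ψ (c (x * z)) = ψ (c x) := by
      intro x z hz
      rw [hcR x z hz, hχ z hz, mul_one]
    -- the square of the norm
    have hnorm : (∑ x, ψ (c x)) * (starRingEnd ℂ) (∑ x, ψ (c x)) =
        (Fintype.card L : ℂ) * (Fintype.card R : ℂ) := by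
      have e1 : (∑ x, ψ (c x)) * (starRingEnd ℂ) (∑ x, ψ (c x)) =
          ∑ y, ∑ z, ψ (c z) * ψ (β y z) := by
        rw [map_sum, Finset.mul_sum]
        refine Finset.sum_congr rfl fun y _ => ?_
        rw [Finset.sum_mul, ← Equiv.sum_comp (Equiv.mulLeft y)]
        refine Finset.sum_congr rfl fun z _ => ?_
        rw [Equiv.coe_mulLeft, hc, AddChar.map_add_eq_mul, AddChar.map_add_eq_mul]
        have h4 : ψ (c y) * (starRingEnd ℂ) (ψ (c y)) = 1 := by
          rw [Complex.mul_conj, Complex.normSq_eq_norm_sq, ψ.norm_apply]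
          simp
        calc _ = (ψ (c y) * (starRingEnd ℂ) (ψ (c y))) * (ψ (c z) * ψ (β y z)) := by ring
          _ = _ := by rw [h4, one_mul]
      rw [e1, Finset.sum_comm]
      have e2 : ∀ z, ∑ y, ψ (c z) * ψ (β y z) = if z ∈ R then (Fintype.card L : ℂ) else 0 := by
        intro z
        rw [← Finset.mul_sum]
        split_ifs with hz
        · rw [hχ z hz, one_mul, Finset.sum_congr rfl fun y _ => (hRmem z).1 hz y]
          simp
        · rw [hRmem] at hz
          push Not at hz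
          obtain ⟨y0, hy0⟩ := hz
          have h5 : ∑ y, ψ (β y z) = (∑ y, ψ (β y z)) * ψ (β y0 z) := by
            conv_lhs => rw [← Equiv.sum_comp (Equiv.mulRight y0)]
            rw [Finset.sum_mul]
            refine Finset.sum_congr rfl fun y _ => ?_
            rw [Equiv.coe_mulRight, hβ1, AddChar.map_add_eq_mul]
          have h6 : (∑ y, ψ (β y z)) * (ψ (β y0 z) - 1) = 0 := by
            rw [mul_sub, ← h5, mul_one, sub_self]
          rw [(mul_eq_zero.1 h6).resolve_right (sub_ne_zero.2 hy0), mul_zero]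
      rw [Finset.sum_congr rfl fun z _ => e2 z, ← Finset.sum_filter, Finset.sum_const,
        nsmul_eq_mul, mul_comm]
      congr 2
      rw [Fintype.card_subtype]
    -- the number of cosets
    obtain ⟨r, hr⟩ : ∃ r, Fintype.card (L ⧸ R) = r + 1 :=
      ⟨Fintype.card (L ⧸ R) - 1, by have := Fintype.card_pos (α := L ⧸ R); omega⟩
    have hcard : Fintype.card L = (r + 1) * Fintype.card R := by
      rw [← hr]
      have := Subgroup.card_eq_card_quotient_mul_card_subgroup R
      simpa [Nat.card_eq_fintype_card] using this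
    have hRpos : (0 : ℝ) < Fintype.card R := by exact_mod_cast Fintype.card_pos
    right
    rw [Set.mem_iUnion]
    refine ⟨r, ?_, ?_⟩
    · have h7 : ‖∑ x, ψ (c x)‖ ^ 2 = (Fintype.card L : ℝ) * Fintype.card R := by
        have h8 := hnorm
        rw [Complex.mul_conj, Complex.normSq_eq_norm_sq] at h8
        exact_mod_cast h8
      rw [norm_div, Complex.norm_natCast, div_le_div_iff₀ hLpos (Real.sqrt_pos.2 (by positivity)),
        one_mul]
      refine le_of_eq ?_
      have h9 : (‖∑ x, ψ (c x)‖ * Real.sqrt (r + 1)) ^ 2 = (Fintype.card L : ℝ) ^ 2 := by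
        rw [mul_pow, h7, Real.sq_sqrt (by positivity), hcard]
        push_cast
        ring
      have h10 : 0 ≤ ‖∑ x, ψ (c x)‖ * Real.sqrt (r + 1) := by positivity
      exact (sq_eq_sq₀ h10 hLpos.le).1 h9
    · refine ⟨fun i => ψ (c ((Fintype.equivFinOfCardEq hr).symm i).out), fun i => ?_, ?_⟩
      · rw [← AddChar.map_nsmul_eq_pow, card_nsmul_eq_zero, AddChar.map_zero_eq_one]
      · have h11 : ∑ x, ψ (c x) = (Fintype.card R : ℂ) * ∑ q : L ⧸ R, ψ (c q.out) := by
          have h12 : ∀ x : L, ψ (c x) = ψ (c ((x : L ⧸ R)).out) := by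
            intro x
            have h13 : x = (x : L ⧸ R).out * ((x : L ⧸ R).out⁻¹ * x) := by group
            conv_lhs => rw [h13]
            apply hconst
            rw [← QuotientGroup.eq, QuotientGroup.out_eq']
          rw [Finset.sum_congr rfl fun x _ => h12 x,
            ← Finset.sum_fiberwise Finset.univ (fun x : L => (x : L ⧸ R)), Finset.mul_sum]
          refine Finset.sum_congr rfl fun q _ => ?_
          rw [Finset.sum_congr rfl (g := fun _ => ψ (c q.out))
            (fun x hx => by rw [(Finset.mem_filter.1 hx).2]), Finset.sum_const, nsmul_eq_mul]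
          congr 2
          have h14 : Fintype.card R = Fintype.card {x : L // (x : L ⧸ R) = q} := by
            refine Fintype.card_congr
              { toFun := fun z => ⟨q.out * z, by
                  rw [QuotientGroup.mk_mul_of_mem _ z.2, QuotientGroup.out_eq']⟩
                invFun := fun x => ⟨q.out⁻¹ * x.1, by
                  rw [← QuotientGroup.eq, QuotientGroup.out_eq', x.2]⟩
                left_inv := fun z => by simp
                right_inv := fun x => by simp }
          rw [h14, Fintype.card_subtype]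
        have h15 : ∑ i, ψ (c ((Fintype.equivFinOfCardEq hr).symm i).out) =
            ∑ q : L ⧸ R, ψ (c q.out) :=
          Equiv.sum_comp (Fintype.equivFinOfCardEq hr).symm (fun q : L ⧸ R => ψ (c q.out))
        rw [h15, h11, hcard]
        have hR0 : (Fintype.card R : ℂ) ≠ 0 := by exact_mod_cast Fintype.card_ne_zero
        have hr0 : ((r : ℂ) + 1) ≠ 0 := by exact_mod_cast Nat.succ_ne_zero r
        push_cast
        field_simp

/-- The set of possible densities. -/
def GS (b : ℕ) : Set ℂ := (fun z => z / (b : ℂ)) '' sumSet b (Z b)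

theorem CC_GS (b : ℕ) (hb : 0 < b) : CC (GS b) :=
  ((CC_Z b hb).sumSet b).image _ (by fun_prop)

include hβ1 hβ2 hc in
theorem density_mem : (Nat.card {x : L // c x = 0} : ℂ) / (Fintype.card L : ℂ) ∈
    GS (Fintype.card A) := by
  classical
  refine ⟨∑ ψ : AddChar A ℂ, (∑ x, ψ (c x)) / (Fintype.card L : ℂ),
    sum_mem_sumSet AddChar.card_eq _ (fun ψ => gauss_mem c β hc hβ1 hβ2 ψ), ?_⟩
  have hA0 : (Fintype.card A : ℂ) ≠ 0 := by exact_mod_cast Fintype.card_ne_zero
  rw [← Finset.sum_div, Finset.sum_comm, Finset.sum_congr rfl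
    fun x _ => AddChar.sum_apply_eq_ite (c x), ← Finset.sum_filter, Finset.sum_const,
    nsmul_eq_mul, Nat.card_eq_fintype_card, Fintype.card_subtype]
  simp only
  field_simp

end Gauss

end V1125.Inv
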