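import Mathlib
import Pool.Agent.V1125.Inv.CC

/-!
# Counting the solutions of `x ^ 2 = 1` in a group with a normal subgroup of class at most two
-/

set_option autoImplicit false

namespace V1125.Inv

open Set
open scoped commutatorElement

theorem density_mem_mul {L A : Type*} [Group L] [Finite L] [CommGroup A] [Finite A]
    (c : L → A) (β : L → L → A) (hc : ∀ x y, c (x * y) = c x * c y * β x y)
    (hβ1 : ∀ x y z, β (x * y) z = β x z * β y z) (hβ2 : ∀ x y z, β x (y * z) = β x y * β x z) :
    (Nat.card {x : L // c x = 1} : ℂ) / (Nat.card L : ℂ) ∈ GS (Nat.card A) := by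
  have : Fintype L := Fintype.ofFinite L
  have : Fintype (Additive A) := Fintype.ofFinite _
  have h := density_mem (A := Additive A) (fun x => Additive.ofMul (c x))
    (fun x y => Additive.ofMul (β x y))
    (fun x y => by rw [hc]; rfl) (fun x y z => by rw [hβ1]; rfl) (fun x y z => by rw [hβ2]; rfl)
  rw [← Nat.card_eq_fintype_card, ← Nat.card_eq_fintype_card] at h
  exact h

/-- The possible values of the proportion of solutions in one coset. -/
def CS (b : ℕ) : Set ℂ := {0} ∪ Set.image2 (· * ·) Rec (GS b)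

theorem CC_CS (b : ℕ) (hb : 0 < b) : CC (CS b) :=
  (CC.of_finite (Set.finite_singleton _)).union
    (CC_Rec.image2 (CC_GS b hb) _ (by exact continuous_mul))

section

variable {G : Type*} [Group G] (W K : Subgroup G)
  (hKW : K ≤ W) (hcomm : ∀ x ∈ W, ∀ y ∈ W, ⁅x, y⁆ ∈ K)
  (hcent : ∀ k ∈ K, ∀ w ∈ W, k * w = w * k)

include hKW hcomm hcent

theorem comm_mul_left {x y z : G} (hx : x ∈ W) (hy : y ∈ W) (hz : z ∈ W) :
    ⁅x * y, z⁆ = ⁅x, z⁆ * ⁅y, z⁆ := by
  have h1 : ⁅x * y, z⁆ = x * ⁅y, z⁆ * x⁻¹ * ⁅x, z⁆ := by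
    simp only [commutatorElement_def]; group
  have h2 : ⁅y, z⁆ * x = x * ⁅y, z⁆ := hcent _ (hcomm y hy z hz) x hx
  have h3 : ⁅y, z⁆ * ⁅x, z⁆ = ⁅x, z⁆ * ⁅y, z⁆ :=
    hcent _ (hcomm y hy z hz) _ (hKW (hcomm x hx z hz))
  rw [h1, ← h2, mul_inv_cancel_right, h3]

omit hKW in
theorem comm_mul_right {x y z : G} (hx : x ∈ W) (hy : y ∈ W) (hz : z ∈ W) :
    ⁅x, y * z⁆ = ⁅x, y⁆ * ⁅x, z⁆ := by
  have h1 : ⁅x, y * z⁆ = ⁅x, y⁆ * (y * ⁅x, z⁆ * y⁻¹) := by
    simp only [commutatorElement_def]; group
  have h2 : ⁅x, z⁆ * y = y * ⁅x, z⁆ := hcent _ (hcomm x hx z hz) y hy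
  rw [h1, ← h2, mul_inv_cancel_right]

/-- One coset. -/
theorem coset_mem [Finite G] [hWn : W.Normal] (g : G) (hg : g * g = 1) :
    (Nat.card {w : W // (g * w) * (g * w) = 1} : ℂ) / (Nat.card W : ℂ) ∈ CS (Nat.card K) := by
  classical
  have hginv : g⁻¹ = g := inv_eq_of_mul_eq_one_left hg
  have hα : ∀ w ∈ W, g * w * g ∈ W := by
    intro w hw
    have := hWn.conj_mem w hw g
    rwa [hginv] at this
  -- key identity
  have key : ∀ x ∈ W, ∀ y ∈ W, g * y * g * y ∈ K →
      g * (x * y) * g * (x * y) = (g * x * g * x) * (g * y * g * y) * ⁅x, y⁆ := by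
    intro x hx y hy hyK
    obtain ⟨k, hk⟩ : ∃ k, g * y * g * y = k := ⟨_, rfl⟩
    rw [hk] at hyK
    have h1 : g * y * g = k * y⁻¹ := by rw [← hk]; group
    have h2 : g * (x * y) * g = (g * x * g) * (g * y * g) := by
      calc g * (x * y) * g = g * x * 1 * y * g := by group
        _ = g * x * (g * g) * y * g := by rw [hg]
        _ = _ := by group
    have hcx : ⁅x, y⁆ * x = x * ⁅x, y⁆ := hcent _ (hcomm x hx y hy) x hx
    have hcy : ⁅x, y⁆ * y = y * ⁅x, y⁆ := hcent _ (hcomm x hx y hy) y hy
    have hkx : k * x = x * k := hcent k hyK x hx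
    have h3 : y⁻¹ * x * y = x * ⁅x, y⁆ := by
      calc y⁻¹ * x * y = y⁻¹ * (⁅x, y⁆ * y) * x := by simp only [commutatorElement_def]; group
        _ = ⁅x, y⁆ * x := by rw [hcy]; group
        _ = _ := hcx
    rw [h2, hk, h1]
    calc g * x * g * (k * y⁻¹) * (x * y) = g * x * g * k * (y⁻¹ * x * y) := by group
      _ = g * x * g * k * (x * ⁅x, y⁆) := by rw [h3]
      _ = g * x * g * (k * x) * ⁅x, y⁆ := by group
      _ = g * x * g * (x * k) * ⁅x, y⁆ := by rw [hkx]
      _ = _ := by group
  let L : Subgroup W :=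
    { carrier := {w | g * w * g * w ∈ K}
      mul_mem' := by
        intro a b ha hb
        simp only [Set.mem_ofPred_eq, Subgroup.coe_mul] at *
        rw [key a a.2 b b.2 hb]
        exact K.mul_mem (K.mul_mem ha hb) (hcomm a a.2 b b.2)
      one_mem' := by
        simp only [Set.mem_ofPred_eq, Subgroup.coe_one, mul_one, hg]
        exact K.one_mem
      inv_mem' := by
        intro a ha
        simp only [Set.mem_ofPred_eq, Subgroup.coe_inv] at *
        have h1 : g * (a : G)⁻¹ * g * (a : G)⁻¹ = (a * (g * a * g * a) * (a : G)⁻¹)⁻¹ := by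
          rw [mul_inv_rev, mul_inv_rev, mul_inv_rev, mul_inv_rev, mul_inv_rev, hginv]
          group
        rw [h1]
        apply K.inv_mem
        rw [← hcent _ ha a a.2, mul_inv_cancel_right]
        exact ha }
  have hL : ∀ w : W, w ∈ L ↔ g * w * g * w ∈ K := fun w => Iff.rfl
  let _ : CommGroup K :=
    { (inferInstance : Group K) with
      mul_comm := fun a b => Subtype.ext (hcent a a.2 b (hKW b.2)) }
  have hd := density_mem_mul (L := L) (A := K) (fun w => ⟨g * (w : W) * g * (w : W), w.2⟩)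
    (fun x y => ⟨⁅((x : W) : G), ((y : W) : G)⁆, hcomm _ (x : W).2 _ (y : W).2⟩)
    (fun x y => Subtype.ext (key _ (x : W).2 _ (y : W).2 y.2))
    (fun x y z => Subtype.ext (comm_mul_left W K hKW hcomm hcent (x : W).2 (y : W).2 (z : W).2))
    (fun x y z => Subtype.ext (comm_mul_right W K hcomm hcent (x : W).2 (y : W).2 (z : W).2))
  right
  refine ⟨(1 : ℂ) / (L.index : ℂ), rec_mem (Nat.pos_of_ne_zero L.index_ne_zero_of_finite), _, hd, ?_⟩
  have hcard : Nat.card L * L.index = Nat.card W := L.card_mul_index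
  have hbij : Nat.card {x : L // (⟨g * (x : W) * g * (x : W), x.2⟩ : K) = 1} =
      Nat.card {w : W // (g * w) * (g * w) = 1} := by
    refine Nat.card_congr
      { toFun := fun x => ⟨x.1.1, by
          have := congrArg Subtype.val x.2
          simpa [mul_assoc] using this⟩
        invFun := fun w => ⟨⟨w.1, by
          rw [hL]
          have := w.2
          rw [mul_assoc, mul_assoc] 
          rw [mul_assoc] at this
          rw [this]; exact K.one_mem⟩, by
            apply Subtype.ext
            have := w.2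
            simpa [mul_assoc] using this⟩
        left_inv := fun x => rfl
        right_inv := fun w => rfl }
  have hL0 : (Nat.card L : ℂ) ≠ 0 := by exact_mod_cast Nat.card_pos.ne'
  have hi0 : (L.index : ℂ) ≠ 0 := by exact_mod_cast L.index_ne_zero_of_finite
  simp only
  rw [hbij, ← hcard]
  push_cast
  field_simp

/-- The proportion of solutions of `x * x = 1`. -/
theorem j_mem [Finite G] [hWn : W.Normal] :
    (Nat.card {x : G // x * x = 1} : ℂ) / (Nat.card G : ℂ) ∈
      (fun z => z / (W.index : ℂ)) '' sumSet W.index (CS (Nat.card K)) := by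
  classical
  have : Fintype G := Fintype.ofFinite G
  have : Fintype (G ⧸ W) := Fintype.ofFinite _
  have hm : Fintype.card (G ⧸ W) = W.index := by
    rw [← Nat.card_eq_fintype_card]; rfl
  refine ⟨∑ q : G ⧸ W, (Nat.card {x : G // x * x = 1 ∧ (x : G ⧸ W) = q} : ℂ) / (Nat.card W : ℂ),
    sum_mem_sumSet hm _ ?_, ?_⟩
  · intro q
    by_cases h : Nonempty {x : G // x * x = 1 ∧ (x : G ⧸ W) = q}
    · obtain ⟨g, hg, hgq⟩ := h
      have h1 : Nat.card {x : G // x * x = 1 ∧ (x : G ⧸ W) = q} =
          Nat.card {w : W // (g * w) * (g * w) = 1} := by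
        refine Nat.card_congr
          { toFun := fun x => ⟨⟨g⁻¹ * x.1, by
              rw [← QuotientGroup.eq, hgq, x.2.2]⟩, by
              have := x.2.1
              simpa using this⟩
            invFun := fun w => ⟨g * w.1, w.2, by
              rw [QuotientGroup.mk_mul_of_mem _ w.1.2, hgq]⟩
            left_inv := fun x => by simp
            right_inv := fun w => by simp }
      rw [h1]
      exact coset_mem W K hKW hcomm hcent g hg
    · have h1 : Nat.card {x : G // x * x = 1 ∧ (x : G ⧸ W) = q} = 0 := by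
        rw [Nat.card_eq_zero]
        left
        exact not_nonempty_iff.1 h
      rw [h1]
      left
      simp
  · have h1 : (Nat.card {x : G // x * x = 1} : ℂ) =
        ∑ q : G ⧸ W, (Nat.card {x : G // x * x = 1 ∧ (x : G ⧸ W) = q} : ℂ) := by
      have h2 : Nat.card {x : G // x * x = 1} =
        ∑ q : G ⧸ W, Nat.card {x : G // x * x = 1 ∧ (x : G ⧸ W) = q} := by
        rw [Nat.card_eq_fintype_card, Fintype.card_subtype,
          Finset.card_eq_sum_card_fiberwise (f := fun x : G => (x : G ⧸ W)) (t := Finset.univ)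
            (by intro x _; simp)]
        refine Finset.sum_congr rfl fun q _ => ?_
        rw [Nat.card_eq_fintype_card, Fintype.card_subtype, Finset.filter_filter]
      rw [h2]
      push_cast
      rfl
    have hW0 : (Nat.card W : ℂ) ≠ 0 := by exact_mod_cast Nat.card_pos.ne'
    have hi0 : (W.index : ℂ) ≠ 0 := by exact_mod_cast W.index_ne_zero_of_finite
    rw [h1, ← W.card_mul_index]
    simp only
    rw [← Finset.sum_div]
    push_cast
    field_simp

end

end V1125.Inv
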