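import Mathlib
import Pool.Agent.V1125.Inv.Count
import Pool.Agent.Y392.Neu.Neumann

/-!
# Finite groups with many solutions of `x ^ 2 = 1`
-/

set_option autoImplicit false

namespace V1125.Inv

open Set
open scoped commutatorElement

section

variable {G : Type*} [Group G]

/-- An element whose square is trivial and which inverts `t` (if there is one). -/
noncomputable def inverter (t : G) : G := by
  classical
  exact if h : ∃ x : G, x * x = 1 ∧ x * t * x = t⁻¹ then h.choose else 1

theorem inverter_spec {t : G} (h : ∃ x : G, x * x = 1 ∧ x * t * x = t⁻¹) :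
    inverter t * inverter t = 1 ∧ inverter t * t * inverter t = t⁻¹ := by
  unfold inverter
  rw [dif_pos h]
  exact h.choose_spec

theorem sq_le_comm [Finite G] : (Nat.card {x : G // x * x = 1}) ^ 2 ≤
    Nat.card {p : G × G // p.1 * p.2 = p.2 * p.1} := by
  rw [sq, ← Nat.card_prod]
  refine Nat.card_le_card_of_injective
    (fun p : {x : G // x * x = 1} × {x : G // x * x = 1} =>
      (⟨(p.1.1 * p.2.1, inverter (p.1.1 * p.2.1) * p.1.1), ?_⟩ :
        {p : G × G // p.1 * p.2 = p.2 * p.1})) ?_
  · obtain ⟨⟨x, hx⟩, ⟨y, hy⟩⟩ := p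
    simp only
    have hxi : x⁻¹ = x := inv_eq_of_mul_eq_one_left hx
    have hyi : y⁻¹ = y := inv_eq_of_mul_eq_one_left hy
    have ht : x * (x * y) * x = (x * y)⁻¹ := by
      rw [mul_inv_rev, hxi, hyi, ← mul_assoc, hx, one_mul]
    obtain ⟨t, htd⟩ : ∃ t, x * y = t := ⟨_, rfl⟩
    rw [htd] at ht ⊢
    obtain ⟨h1, h2⟩ := inverter_spec ⟨x, hx, ht⟩
    obtain ⟨u, hu⟩ : ∃ u, inverter t = u := ⟨_, rfl⟩
    rw [hu] at h1 h2 ⊢
    -- u t u = t⁻¹, x t x = t⁻¹
    have h3 : t * x = x * t⁻¹ := by
      calc t * x = x * x * t * x := by rw [hx, one_mul]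
        _ = x * (x * t * x) := by group
        _ = _ := by rw [ht]
    have h4 : u * t⁻¹ = t * u := by
      calc u * t⁻¹ = u * (u * t * u) := by rw [h2]
        _ = (u * u) * t * u := by group
        _ = _ := by rw [h1, one_mul]
    have h5 : u * t = t⁻¹ * u := by
      calc u * t = u * t * (u * u) := by rw [h1, mul_one]
        _ = (u * t * u) * u := by group
        _ = _ := by rw [h2]
    have h6 : x * t = t⁻¹ * x := by
      calc x * t = x * t * (x * x) := by rw [hx, mul_one]
        _ = (x * t * x) * x := by group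
        _ = _ := by rw [ht]
    calc t * (u * x) = (t * u) * x := by group
      _ = u * t⁻¹ * x := by rw [h4]
      _ = u * (t⁻¹ * x) := by group
      _ = u * (x * t) := by rw [h6]
      _ = _ := by group
  · rintro ⟨⟨x, hx⟩, ⟨y, hy⟩⟩ ⟨⟨x', hx'⟩, ⟨y', hy'⟩⟩ h
    simp only [Subtype.mk.injEq, Prod.mk.injEq] at h
    obtain ⟨h1, h2⟩ := h
    rw [h1] at h2
    have h3 := mul_left_cancel h2
    subst h3
    have h4 := mul_left_cancel h1
    subst h4
    rfl

end

/-- The structure theorem. -/
theorem structure_thm (ε : ℝ) (hε : 0 < ε) : ∃ M s : ℕ, ∀ (G : Type*) [Group G] [Finite G],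
    ε * (Nat.card G : ℝ) ≤ Nat.card {x : G // x * x = 1} →
    ∃ W K : Subgroup G, W.Normal ∧ K ≤ W ∧ (∀ x ∈ W, ∀ y ∈ W, ⁅x, y⁆ ∈ K) ∧
      (∀ k ∈ K, ∀ w ∈ W, k * w = w * k) ∧ W.index ≤ M ∧ Nat.card K ≤ s := by
  obtain ⟨M, s, h⟩ := Pool.Agent.Y392.Neu.neumann (ε ^ 2) (by positivity)
  refine ⟨M.factorial * s.factorial, s, ?_⟩
  intro G _ _ hG
  obtain ⟨H, hH, hs⟩ := h G (by
    have h1 : (ε * (Nat.card G : ℝ)) ^ 2 ≤ (Nat.card {x : G // x * x = 1} : ℝ) ^ 2 := by
      apply pow_le_pow_left₀ _ hG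
      positivity
    have h2 := sq_le_comm (G := G)
    have h3 : (Nat.card {x : G // x * x = 1} : ℝ) ^ 2 ≤
      Nat.card {p : G × G // p.1 * p.2 = p.2 * p.1} := by exact_mod_cast h2
    rw [mul_pow] at h1
    exact h1.trans h3)
  let V := H.normalCore
  have hV : V.index ≤ M.factorial := by
    have h1 : V.index ∣ H.index.factorial := by
      rw [show V = H.normalCore from rfl, Subgroup.normalCore_eq_ker, Subgroup.index_ker,
        Subgroup.index_eq_card, ← Nat.card_perm]
      exact Subgroup.card_subgroup_dvd_card _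
    exact (Nat.le_of_dvd (Nat.factorial_pos _) h1).trans (Nat.factorial_le hH)
  let D : Subgroup G := ⁅V, V⁆
  have hDcard : Nat.card D ≤ s := by
    have h1 : D ≤ (_root_.commutator H).map H.subtype := by
      rw [Subgroup.map_subtype_commutator]
      exact Subgroup.commutator_mono H.normalCore_le H.normalCore_le
    have h2 : Nat.card D ≤ Nat.card ((_root_.commutator H).map H.subtype) :=
      Subgroup.card_le_of_le h1
    refine h2.trans (le_trans ?_ hs)
    exact (Nat.card_image_le (Set.toFinite _))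
  let C : Subgroup G := (MulAut.conjNormal (H := D)).ker
  have hC : C.index ≤ s.factorial := by
    rw [Subgroup.index_ker]
    have h1 : Nat.card (MulAut.conjNormal (H := D)).range ≤ Nat.card (MulAut D) :=
      Nat.card_le_card_of_injective _ Subtype.val_injective
    have h2 : Nat.card (MulAut D) ≤ Nat.card (Equiv.Perm D) :=
      Nat.card_le_card_of_injective _ MulEquiv.toEquiv_injective
    rw [Nat.card_perm] at h2
    exact h1.trans (h2.trans (Nat.factorial_le hDcard))
  let W : Subgroup G := V ⊓ C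
  have hWV : W ≤ V := inf_le_left
  have hWn : W.Normal := inferInstance
  let K : Subgroup G := ⁅W, W⁆
  have hKD : K ≤ D := Subgroup.commutator_mono hWV hWV
  refine ⟨W, K, hWn, Subgroup.commutator_le_left _ _, ?_, ?_, ?_, ?_⟩
  · intro x hx y hy
    exact Subgroup.commutator_mem_commutator hx hy
  · intro k hk w hw
    have h1 : MulAut.conjNormal (H := D) w = 1 := (Subgroup.mem_inf.1 hw).2
    have h2 := congrArg (fun f : MulAut D => ((f ⟨k, hKD hk⟩ : D) : G)) h1
    simp only [MulAut.conjNormal_apply, MulAut.one_apply] at h2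
    rw [mul_inv_eq_iff_eq_mul] at h2
    exact h2.symm
  · exact Subgroup.index_inf_le.trans (Nat.mul_le_mul hV hC)
  · exact (Subgroup.card_le_of_le hKD).trans hDcard

end V1125.Inv
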